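import Pool.Agent.helper53.DC.SpecV

/-! V4: inducing a function from `H'` to `W`. -/

set_option autoImplicit false

namespace Pool.Agent.helper53.DC

section V4
variable {W : Type} [Group W] (H' : Subgroup W)

theorem V4_mem (g : W) (q : W ⧸ H') :
    (Quotient.out (g • q))⁻¹ * g * Quotient.out q ∈ H' := by
  rw [mul_assoc]
  apply QuotientGroup.eq.1
  have h1 : ((Quotient.out (g • q) : W) : W ⧸ H') = g • q := Quotient.out_eq' (g • q)
  have h2 : ((Quotient.out q : W) : W ⧸ H') = q := Quotient.out_eq' q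
  have h3 : ((g * Quotient.out q : W) : W ⧸ H') = g • ((Quotient.out q : W) : W ⧸ H') := rfl
  rw [h1, h3, h2]

/-- The cocycle. -/
noncomputable def V4_c (g : W) (q : W ⧸ H') : H' :=
  ⟨(Quotient.out (g • q))⁻¹ * g * Quotient.out q, V4_mem H' g q⟩

theorem V4_c_one (q : W ⧸ H') : V4_c H' 1 q = 1 := by
  apply Subtype.ext
  show (Quotient.out ((1 : W) • q))⁻¹ * 1 * Quotient.out q = 1
  rw [one_smul]
  group

theorem V4_c_mul (g h : W) (q : W ⧸ H') : V4_c H' (g * h) q = V4_c H' g (h • q) * V4_c H' h q := by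
  apply Subtype.ext
  show (Quotient.out ((g * h) • q))⁻¹ * (g * h) * Quotient.out q =
    ((Quotient.out (g • (h • q)))⁻¹ * g * Quotient.out (h • q)) *
      ((Quotient.out (h • q))⁻¹ * h * Quotient.out q)
  rw [mul_smul]
  group

/-- The induced action. -/
noncomputable def V4_act (A : Type) [MulAction H' A] : MulAction W ((W ⧸ H') × A) where
  smul g z := (g • z.1, V4_c H' g z.1 • z.2)
  one_smul z := by
    show ((1 : W) • z.1, V4_c H' 1 z.1 • z.2) = z
    rw [V4_c_one, one_smul, one_smul]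
  mul_smul g h z := by
    show ((g * h) • z.1, V4_c H' (g * h) z.1 • z.2) =
      (g • (h • z.1), V4_c H' g (h • z.1) • (V4_c H' h z.1 • z.2))
    rw [V4_c_mul, mul_smul, mul_smul]

end V4

theorem V4 : V4_stmt := by
  intro W V _ _ H' _ A _ _ F hF
  refine ⟨(W ⧸ H') × A, inferInstance, V4_act H' A, fun u z => F ((Quotient.out z.1)⁻¹ • u) z.2,
    ?_, ?_⟩
  · intro g u z
    show F ((Quotient.out (g • z.1))⁻¹ • (g • u)) (V4_c H' g z.1 • z.2) =
      F ((Quotient.out z.1)⁻¹ • u) z.2
    rw [← hF (V4_c H' g z.1) ((Quotient.out z.1)⁻¹ • u) z.2]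
    congr 1
    show (Quotient.out (g • z.1))⁻¹ • (g • u) =
      ((Quotient.out (g • z.1))⁻¹ * g * Quotient.out z.1) • ((Quotient.out z.1)⁻¹ • u)
    rw [smul_smul, smul_smul]
    congr 1
    group
  · intro u u'
    rw [Fintype.sum_prod_type]

end Pool.Agent.helper53.DC
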